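import Pool.Agent.H42.Shift

namespace Pool.Agent.Results.MP_c20855_lc.Q2

/-- The set of reals whose binary digits are the shifts of `b`. -/
def orbit (b : ℕ → Bool) : Set ℝ :=
  Set.range fun i : ℕ => ∑' n : ℕ, (if b (n + i) then 1 else 0) * (1 / 2 : ℝ) ^ (n + 1)

theorem result (b : ℕ → Bool) [IsWellOrder (orbit b) (· < ·)] :
    (∀ δ : Ordinal.{0}, Order.IsSuccLimit δ →
      Ordinal.type (fun x y : orbit b => x < y) ≠ Ordinal.omega0 ^ δ) ∧
    Ordinal.type (fun x y : orbit b => x < y) ≠ Ordinal.epsilon 0 := by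
  have hw : WellFoundedLT (Set.range (Pool.Agent.H42.Shift.val b)) :=
    ⟨(inferInstance : IsWellFounded (orbit b) (· < ·)).wf⟩
  have he : Order.IsSuccLimit (Ordinal.epsilon 0) := by
    rw [← Ordinal.omega0_opow_epsilon]
    exact Ordinal.isSuccLimit_opow_left Ordinal.isSuccLimit_omega0
      (Ordinal.natCast_lt_epsilon 0 0).ne'
  refine ⟨fun δ hδ => Pool.Agent.H42.Shift.main b hδ, ?_⟩
  rw [← Ordinal.omega0_opow_epsilon]
  exact Pool.Agent.H42.Shift.main b he

end Pool.Agent.Results.MP_c20855_lc.Q2
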